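import Pool.Agent.H591R3.PHG.Sig
import Pool.Agent.H620R2.GaugeR.Seq

/-! Upward collapse of the polynomial hierarchy with advice, relative to an oracle. -/

set_option autoImplicit false

namespace Pool.Agent.W908.Col

open Pool.Agent.NPC Pool.Agent.H620R2.Gauge Pool.Agent.H622R2
open Pool.Agent.H591R3.PHG (IsSig IsSigPoly)

/-- Change of the innermost string (and of the lengths of the quantified strings). -/
def tr (G : List Bool → List Unit × List Bool) : ℕ → List Bool → List Unit × List Bool
  | 0, y => G y
  | k + 1, z => ((tr G k (unpair z).2).1,
      pairBits (((unpair z).1.zip (tr G k (unpair z).2).1).map (fun u => u.1))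
        (tr G k (unpair z).2).2)

theorem poly_tr {G : List Bool → List Unit × List Bool} (hG : Poly G) (k : ℕ) :
    Poly (tr G k) := by
  have h1 : Poly (fun z : List Bool => (unpair z).1) := Poly.fst poly_unpair
  have h2 : Poly (fun z : List Bool => (unpair z).2) := Poly.snd poly_unpair
  induction k with
  | zero => exact hG.congr (fun z => rfl)
  | succ k ih =>
    have h3 : Poly (fun z : List Bool => tr G k (unpair z).2) := ih.comp h2
    have h4 : Poly (fun z : List Bool => (unpair z).1.zip (tr G k (unpair z).2).1) :=
      Poly.zip h1 (Poly.fst h3)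
    have h5 : Poly (fun z : List Bool =>
        ((unpair z).1.zip (tr G k (unpair z).2).1).map (fun u => u.1)) :=
      NPC.Poly.map (F := fun _ u => u.1) h4 (Poly.fst (Poly.snd Poly.id))
    exact (Poly.pair (Poly.fst h3) (poly_pairBits h5 (Poly.snd h3))).congr (fun z => rfl)

theorem quant_tr (G : List Bool → List Unit × List Bool) (V : List Bool → List Bool) {m m' : ℕ}
    (hm : m ≤ m') :
    ∀ (k j : ℕ) (b : Bool) (y t : List Bool), tr G j y = (List.replicate m (), t) →
      (Quant m V k b t ↔ Quant m' (fun z => V (tr G (j + k) z).2) k b y) := by
  intro k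
  induction k with
  | zero =>
    intro j b y t h
    cases b <;> simp [Quant, h]
  | succ k ih =>
    intro j b y t h
    have key : ∀ w : List Bool, tr G (j + 1) (pairBits w y) =
        (List.replicate m (), pairBits (w.take m) t) := by
      intro w
      simp only [tr, unpair_pairBits, h, U2.map_fst_zip_replicate]
    have e : j + 1 + k = j + (k + 1) := by omega
    cases b with
    | true =>
      simp only [Quant]
      constructor
      · rintro ⟨w, hw, h1⟩
        refine ⟨w, hw.trans hm, ?_⟩
        have h2 := (ih (j + 1) false (pairBits w y) _ (key w))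
        rw [List.take_of_length_le hw, e] at h2
        exact h2.1 h1
      · rintro ⟨w, hw, h1⟩
        refine ⟨w.take m, by simp, ?_⟩
        have h2 := (ih (j + 1) false (pairBits w y) _ (key w))
        rw [e] at h2
        exact h2.2 h1
    | false =>
      simp only [Quant]
      constructor
      · intro h1 w hw
        have h2 := (ih (j + 1) true (pairBits w y) _ (key w))
        rw [e] at h2
        exact h2.1 (h1 (w.take m) (by simp))
      · intro h1 w hw
        have h2 := (ih (j + 1) true (pairBits w y) _ (key w))
        rw [List.take_of_length_le hw, e] at h2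
        exact h2.2 (h1 w (hw.trans hm))

theorem eq_replicate (l : List Unit) : l = List.replicate l.length () := by
  rw [List.eq_replicate_iff]
  exact ⟨rfl, fun b _ => rfl⟩

/-- a polynomial bound for the length of the first component -/
theorem len_bound {G : List Bool → List Unit × List Bool} (hG : Poly G) :
    ∃ r : Polynomial ℕ, ∀ y : List Bool, (G y).1.length ≤ r.eval y.length := by
  obtain ⟨q, hq⟩ := (Poly.fst hG).sz_le
  refine ⟨q.comp (Polynomial.C 4 * Polynomial.X + Polynomial.C 1), fun y => ?_⟩
  have h3 := length_lt_sz (G y).1
  have h4 := hq y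
  rw [Polynomial.eval_comp]
  refine h3.le.trans (h4.trans (eval_mono _ ?_))
  have h5 := sz_listBool_le y
  simpa using h5

theorem isSig_tr {A : Oracle} {V : List Bool → List Bool} (hV : IsFP A V)
    {G : List Bool → List Unit × List Bool} (hG : Poly G) (k : ℕ) :
    IsSig A k {y | Quant (G y).1.length V k true (G y).2} := by
  obtain ⟨r, hr⟩ := len_bound hG
  refine ⟨fun z => V (tr G k z).2, r, hV.precomp (Poly.snd (poly_tr hG k)), fun y => ?_⟩
  have h := quant_tr G V (hr y) k 0 true y (G y).2 (by
    rw [tr, Prod.ext_iff]
    exact ⟨eq_replicate _, rfl⟩)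
  rw [zero_add] at h
  exact h

/-- `V` with the answers exchanged -/
def neg (V : List Bool → List Bool) (y : List Bool) : List Bool := if V y = [true] then [] else [true]

theorem isFP_neg {A : Oracle} {V : List Bool → List Bool} (hV : IsFP A V) : IsFP A (neg V) := by
  have h : Poly (fun y : List Bool => if y = [true] then ([] : List Bool) else [true]) :=
    Poly.ite (Poly.decide_eq Poly.id (NPC.Poly.const _)) (NPC.Poly.const _) (NPC.Poly.const _)
  exact IsFP.comp (G := fun y => if y = [true] then ([] : List Bool) else [true])
    (IsFP.of_poly h) hV

theorem neg_iff (V : List Bool → List Bool) (y : List Bool) : neg V y = [true] ↔ V y ≠ [true] := by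
  unfold neg
  split_ifs with h <;> simp [h]

theorem quant_neg (m : ℕ) (V : List Bool → List Bool) : ∀ (k : ℕ) (b : Bool) (y : List Bool),
    (Quant m (neg V) k (!b) y ↔ ¬ Quant m V k b y) := by
  intro k
  induction k with
  | zero =>
    intro b y
    simp only [Quant]
    exact neg_iff V y
  | succ k ih =>
    intro b y
    cases b with
    | true =>
      simp only [Quant, Bool.not_true, not_exists, not_and]
      exact forall_congr' fun w => forall_congr' fun _ => ih false (pairBits w y)
    | false =>
      simp only [Quant, Bool.not_false, not_forall]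
      constructor
      · rintro ⟨w, hw, h⟩
        exact ⟨w, hw, (ih true (pairBits w y)).1 h⟩
      · rintro ⟨w, hw, h⟩
        exact ⟨w, hw, (ih true (pairBits w y)).2 h⟩

theorem quant_neg' (m : ℕ) (V : List Bool → List Bool) (k : ℕ) (y : List Bool) :
    (Quant m (neg V) k true y ↔ ¬ Quant m V k false y) := quant_neg m V k false y

theorem quant_neg'' (m : ℕ) (V : List Bool → List Bool) (k : ℕ) (y : List Bool) :
    (Quant m (neg V) k false y ↔ ¬ Quant m V k true y) := quant_neg m V k true y

/-- a string is brought to the length `N` -/
def nrm (N : ℕ) (u : List Bool) : List Bool := (u ++ List.replicate N false).take N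

theorem length_nrm (N : ℕ) (u : List Bool) : (nrm N u).length = N := by
  unfold nrm
  rw [List.length_take, List.length_append, List.length_replicate]
  omega

theorem nrm_eq {N : ℕ} {u : List Bool} (h : u.length = N) : nrm N u = u := by
  unfold nrm
  rw [List.take_append_of_le_length h.ge, List.take_of_length_le h.le]

end Pool.Agent.W908.Col
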