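import Pool.Agent.W908.C1
import Pool.Agent.H620R2.GaugeR.R1

/-! Upward collapse of the polynomial hierarchy with advice, relative to an oracle: the theorem. -/

set_option autoImplicit false

namespace Pool.Agent.W908.Col

open Pool.Agent.NPC Pool.Agent.H620R2.Gauge Pool.Agent.H622R2
open Pool.Agent.H591R3.PHG (IsSig IsSigPoly)

theorem poly_nrm {α : Type} [TEnc α] {N : α → ℕ} {u : α → List Bool} (hN : UPoly N)
    (hu : Poly u) : Poly (fun a => nrm (N a) (u a)) := by
  have h1 : Poly (fun a => (List.replicate (N a) ()).map (fun _ => false)) :=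
    NPC.Poly.map (F := fun _ _ => false) hN (NPC.Poly.const false)
  have h2 : Poly (fun a => u a ++ (List.replicate (N a) ()).map (fun _ => false)) :=
    Poly.append hu h1
  refine (R1.poly_take h2 hN).congr fun a => ?_
  unfold nrm
  rw [List.map_replicate]

/-- the string with a short quantified string `w` in a normal form -/
theorem exists_pad (m r : ℕ) (hr : 2 * m + 1 ≤ r) (φ : List Bool → Prop) :
    (∃ w : List Bool, w.length ≤ m ∧ φ w) ↔
      ∃ w' : List Bool, w'.length ≤ r ∧ φ (((unpair (nrm (2 * m + 1) w')).1).take m) := by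
  constructor
  · rintro ⟨w, hw, h⟩
    have hl : (pairBits w (List.replicate (2 * m - 2 * w.length) false)).length = 2 * m + 1 := by
      rw [A2.length_pairBits, List.length_replicate]
      omega
    refine ⟨pairBits w (List.replicate (2 * m - 2 * w.length) false), by omega, ?_⟩
    rw [nrm_eq hl, unpair_pairBits, List.take_of_length_le hw]
    exact h
  · rintro ⟨w', -, h⟩
    exact ⟨_, by simp, h⟩

theorem step {A : Oracle} {k j : ℕ}
    (H : ∀ L : Set (List Bool), IsSig A (k + 1) L → IsSigPoly A k L)
    (IH : ∀ L : Set (List Bool), IsSig A (k + j) L → IsSigPoly A k L)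
    {L : Set (List Bool)} (hL : IsSig A (k + (j + 1)) L) : IsSigPoly A k L := by
  obtain ⟨V, p, hV, hL⟩ := hL
  have hu1 : Poly (fun z : List Bool => (unpair z).1) := Poly.fst poly_unpair
  have hu2 : Poly (fun z : List Bool => (unpair z).2) := Poly.snd poly_unpair
  -- the first language
  obtain ⟨G1, hG1⟩ : ∃ G1 : List Bool → List Unit × List Bool, G1 = fun u =>
      (List.replicate (p.eval (unpair u).2.length) (),
        pairBits (((unpair (unpair u).1).1).take (p.eval (unpair u).2.length)) (unpair u).2) :=
    ⟨_, rfl⟩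
  have pG1 : Poly G1 := by
    have h3 : UPoly (fun z : List Bool => p.eval (unpair z).2.length) :=
      UPoly.eval (UPoly.length hu2) p
    have h4 : Poly (fun u : List Bool => (unpair (unpair u).1).1) := hu1.comp hu1
    rw [hG1]
    exact Poly.pair h3 (poly_pairBits (R1.poly_take h4 h3) hu2)
  have s1 := isSig_tr (isFP_neg hV) pG1 (k + j)
  obtain ⟨L1', h1, p1, ⟨V1, q1, hV1, hL1'⟩, hh1, hadv1⟩ := IH _ s1
  -- the second language
  obtain ⟨Y, hY⟩ : ∃ Y : List Bool → List Bool, Y = fun z =>
      pairBits (pairBits (nrm (2 * p.eval (unpair (unpair z).2).1.length + 1) (unpair z).1)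
        (unpair (unpair z).2).1) (unpair (unpair z).2).2 := ⟨_, rfl⟩
  have pY : Poly Y := by
    have h3 : Poly (fun z : List Bool => (unpair (unpair z).2).1) := hu1.comp hu2
    have h4 : Poly (fun z : List Bool => (unpair (unpair z).2).2) := hu2.comp hu2
    have h5 : UPoly (fun z : List Bool => 2 * p.eval (unpair (unpair z).2).1.length + 1) :=
      UPoly.add (UPoly.mul (UPoly.const 2) (UPoly.eval (UPoly.length h3) p)) (UPoly.const 1)
    rw [hY]
    exact poly_pairBits (poly_pairBits (poly_nrm h5 hu1) h3) h4
  have lY : ∀ w v : List Bool, (Y (pairBits w v)).length = (Y (pairBits [] v)).length := by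
    intro w v
    rw [hY]
    simp only [unpair_pairBits, A2.length_pairBits, length_nrm]
  obtain ⟨G2, hG2⟩ : ∃ G2 : List Bool → List Unit × List Bool, G2 = fun z =>
      (List.replicate (q1.eval (Y z).length) (), Y z) := ⟨_, rfl⟩
  have pG2 : Poly G2 := by
    rw [hG2]
    exact Poly.pair (UPoly.eval (UPoly.length pY) q1) pY
  obtain ⟨r2, hr2⟩ : ∃ r2 : Polynomial ℕ, ∀ v : List Bool,
      q1.eval (Y (pairBits [] v)).length + (2 * p.eval (unpair v).1.length + 1) ≤
        r2.eval v.length := by
    have h3 : Poly (fun v : List Bool => Y (pairBits [] v)) :=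
      pY.comp (poly_pairBits (NPC.Poly.const []) Poly.id)
    have h4 : UPoly (fun v : List Bool =>
        q1.eval (Y (pairBits [] v)).length + (2 * p.eval (unpair v).1.length + 1)) :=
      UPoly.add (UPoly.eval (UPoly.length h3) q1)
        (UPoly.add (UPoly.mul (UPoly.const 2) (UPoly.eval (UPoly.length hu1) p)) (UPoly.const 1))
    have h5 : Poly (fun v : List Bool => (List.replicate
        (q1.eval (Y (pairBits [] v)).length + (2 * p.eval (unpair v).1.length + 1)) (), v)) :=
      Poly.pair h4 Poly.id
    obtain ⟨r, hr⟩ := len_bound h5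
    exact ⟨r, fun v => by simpa using hr v⟩
  obtain ⟨W, hW⟩ : ∃ W : List Bool → List Bool, W = fun z => neg V1 (tr G2 k z).2 := ⟨_, rfl⟩
  have s2 : IsSig A (k + 1) {v | Quant (r2.eval v.length) W (k + 1) true v} :=
    ⟨W, r2, by rw [hW]; exact (isFP_neg hV1).precomp (Poly.snd (poly_tr pG2 k)), fun v => Iff.rfl⟩
  have c2 : ∀ v : List Bool, v ∈ {v | Quant (r2.eval v.length) W (k + 1) true v} ↔
      ∃ w : List Bool, w.length ≤ r2.eval v.length ∧ Y (pairBits w v) ∉ L1' := by
    intro v
    rw [Set.mem_setOf_eq, Quant]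
    refine exists_congr fun w => and_congr_right fun _ => ?_
    have hm : q1.eval (Y (pairBits w v)).length ≤ r2.eval v.length := by
      rw [lY w v]
      exact (Nat.le_add_right _ _).trans (hr2 v)
    have h3 := quant_tr G2 (neg V1) hm k 0 false (pairBits w v) (Y (pairBits w v)) (by
      rw [tr, hG2])
    rw [zero_add] at h3
    rw [hW, ← h3, quant_neg'', hL1']
  obtain ⟨L2', h2, p2, ⟨V2, q2, hV2, hL2'⟩, hh2, hadv2⟩ := H _ s2
  -- the lengths
  obtain ⟨n1, hn1⟩ : ∃ n1 : Polynomial ℕ, n1 = Polynomial.C 2 * (Polynomial.C 2 * p +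
      Polynomial.C 1) + Polynomial.X + Polynomial.C 1 := ⟨_, rfl⟩
  have en1 : ∀ (w x : List Bool), (pairBits (nrm (2 * p.eval x.length + 1) w) x).length =
      n1.eval x.length := by
    intro w x
    rw [A2.length_pairBits, length_nrm, hn1]
    simp only [Polynomial.eval_add, Polynomial.eval_mul, Polynomial.eval_C, Polynomial.eval_X]
  -- the characterisation
  have cL : ∀ x : List Bool, x ∈ L ↔
      pairBits x (h1 (n1.eval x.length)) ∈ {v | Quant (r2.eval v.length) W (k + 1) true v} := by
    intro x
    have e : k + (j + 1) = k + j + 1 := by omega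
    rw [hL x, e, Quant, c2]
    have hb := hr2 (pairBits x (h1 (n1.eval x.length)))
    rw [unpair_pairBits] at hb
    rw [exists_pad (p.eval x.length) (r2.eval (pairBits x (h1 (n1.eval x.length))).length)
      ((Nat.le_add_left _ _).trans hb)]
    refine exists_congr fun w => and_congr_right fun _ => ?_
    have h4 : Y (pairBits w (pairBits x (h1 (n1.eval x.length)))) =
        pairBits (pairBits (nrm (2 * p.eval x.length + 1) w) x)
          (h1 (pairBits (nrm (2 * p.eval x.length + 1) w) x).length) := by
      rw [en1, hY]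
      simp only [unpair_pairBits]
    rw [h4, ← hadv1, Set.mem_setOf_eq, hG1]
    simp only [unpair_pairBits, List.length_replicate]
    rw [quant_neg']
    exact not_not.symm
  -- the last language
  obtain ⟨g, hg⟩ : ∃ g : List Bool → List Bool, g = fun y =>
      pairBits (pairBits (unpair y).1 (unpair (unpair y).2).1) (unpair (unpair y).2).2 := ⟨_, rfl⟩
  have pg : Poly g := by
    rw [hg]
    exact poly_pairBits (poly_pairBits hu1 (hu1.comp hu2)) (hu2.comp hu2)
  have pG3 : Poly (fun y : List Bool => (List.replicate (q2.eval (g y).length) (), g y)) :=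
    Poly.pair (UPoly.eval (UPoly.length pg) q2) pg
  refine ⟨_, fun n => pairBits (h1 (n1.eval n)) (h2 (2 * n + (h1 (n1.eval n)).length + 1)),
    Polynomial.C 2 * p1.comp n1 + p2.comp (Polynomial.C 2 * Polynomial.X + p1.comp n1 +
      Polynomial.C 1) + Polynomial.C 1, isSig_tr hV2 pG3 k, fun n => ?_, fun x => ?_⟩
  · rw [A2.length_pairBits]
    simp only [Polynomial.eval_add, Polynomial.eval_mul, Polynomial.eval_C, Polynomial.eval_X,
      Polynomial.eval_comp]
    have h3 := hh1 (n1.eval n)
    have h4 := (hh2 (2 * n + (h1 (n1.eval n)).length + 1)).trans (eval_mono p2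
      (show 2 * n + (h1 (n1.eval n)).length + 1 ≤ 2 * n + p1.eval (n1.eval n) + 1 by omega))
    omega
  · rw [cL, hadv2, hL2', Set.mem_setOf_eq]
    have h3 : g (pairBits x (pairBits (h1 (n1.eval x.length))
        (h2 (2 * x.length + (h1 (n1.eval x.length)).length + 1)))) =
        pairBits (pairBits x (h1 (n1.eval x.length)))
          (h2 (pairBits x (h1 (n1.eval x.length))).length) := by
      rw [hg]
      simp only [unpair_pairBits]
      rw [A2.length_pairBits x]
    rw [h3, List.length_replicate]

/-- If `Σ_{k+1}` is contained in `Σ_k/poly`, then so is the whole polynomial hierarchy. -/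
theorem collapse {A : Oracle} {k : ℕ}
    (H : ∀ L : Set (List Bool), IsSig A (k + 1) L → IsSigPoly A k L) (j : ℕ) :
    ∀ L : Set (List Bool), IsSig A (k + j) L → IsSigPoly A k L := by
  induction j with
  | zero => exact fun L hL => hL.isSigPoly
  | succ j ih => exact fun L hL => step H ih hL

end Pool.Agent.W908.Col
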