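import Pool.Agent.W908.E4
import Pool.Agent.W908.D5

/-! A good random oracle. -/

set_option autoImplicit false

namespace Pool.Agent.W908

open Pool.Agent.NPC Pool.Agent.H620R2.Gauge Finset H568R2 Pool.Agent.H676
open Pool.Agent.H591R3.PHG (IsSigPoly)

theorem length_le_tsz' (P : List (List Bool)) : P.length ≤ tsz P := by
  induction P with
  | nil => simp
  | cons c P ih =>
    rw [tsz_cons, List.length_cons]
    omega

/-- the positions of the key bits -/
def kps (z : List Bool) : List (List Bool) := (List.range (kl z.length)).map (kpos z)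

theorem length_kps (z : List Bool) : (kps z).length = kl z.length := by simp [kps]

theorem key_of_kps {W W' : Oracle} {z : List Bool} (h : ∀ q ∈ kps z, W' q = W q) :
    key W' z = key W z :=
  key_congr fun i hi => h _ (List.mem_map.2 ⟨i, List.mem_range.2 hi, rfl⟩)

/-- the positions of the key bits used by a list of facts -/
def fps (P : List (List Bool)) : List (List Bool) := P.flatMap fun c => kps (unpair c).1

theorem length_fps (W : Oracle) : ∀ P : List (List Bool),
    (∀ c ∈ P, ∃ z, c = pairBits z (key W z)) → (fps P).length ≤ tsz P := by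
  intro P
  induction P with
  | nil => intro _; simp [fps]
  | cons c P ih =>
    intro h
    obtain ⟨z, hz⟩ := h c (List.mem_cons_self ..)
    have h1 := ih fun c hc => h c (List.mem_cons_of_mem _ hc)
    have h2 := length_fact W z
    unfold fps at h1 ⊢
    rw [List.flatMap_cons, List.length_append, length_kps, tsz_cons]
    have h3 : (unpair c).1 = z := by rw [hz, unpair_pairBits]
    rw [h3, kl]
    rw [← hz] at h2
    omega

theorem certP_orac : CertP orac := by
  intro W c hc
  match c with
  | [] => simp [orac] at hc
  | false :: q =>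
    refine ⟨[false :: q], by simp, by simp, fun W' hW' => ?_⟩
    have h1 := hW' (false :: q) (by simp)
    have h2 : W (false :: q) = true := hc
    show W' (false :: q) = true
    rw [h1, h2]
  | true :: c =>
    obtain ⟨z, hz, P, hP⟩ := orac_true.1 hc
    obtain ⟨Rs, h1, h2⟩ := hP.cert
    have hPc := hP.sound
    have h3 : ∀ c ∈ P, ∃ z, c = pairBits z (key W z) := fun c hc => by
      obtain ⟨z, hz, -⟩ := hPc c hc
      exact ⟨z, hz⟩
    have h4 := length_fps W P h3
    have h5 := length_le_tsz' Rs
    have h6 := length_fact W z
    rw [← hz] at h6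
    refine ⟨kps z ++ Rs.map (fun q => false :: q) ++ fps P, ?_, ?_, ?_⟩
    · rw [List.length_append, List.length_append, List.length_map, length_kps, List.length_cons,
        kl]
      omega
    · intro q hq
      rw [List.mem_append, List.mem_append] at hq
      rw [List.length_cons]
      rcases hq with (hq | hq) | hq
      · obtain ⟨i, hi, rfl⟩ := List.mem_map.1 hq
        have := List.mem_range.1 hi
        rw [length_kpos]
        unfold kl at this
        omega
      · obtain ⟨q', hq', rfl⟩ := List.mem_map.1 hq
        have := length_le_tsz hq'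
        rw [List.length_cons]
        omega
      · obtain ⟨c', hc', hq'⟩ := List.mem_flatMap.1 hq
        obtain ⟨z', hz'⟩ := h3 c' hc'
        have h7 := length_le_tsz hc'
        have h8 := length_fact W z'
        rw [← hz'] at h8
        rw [hz', unpair_pairBits] at hq'
        obtain ⟨i, hi, rfl⟩ := List.mem_map.1 hq'
        have := List.mem_range.1 hi
        simp only at this ⊢
        rw [length_kpos]
        unfold kl at this
        omega
    · intro W' hW'
      have hk : key W' z = key W z := key_of_kps fun q hq => hW' q (by simp [hq])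
      refine orac_true.2 ⟨z, by rw [hz, hk], P, h2 W' ?_ ?_⟩
      · intro q hq
        exact hW' _ (List.mem_append.2 (Or.inl (List.mem_append.2 (Or.inr
          (List.mem_map.2 ⟨q, hq, rfl⟩)))))
      · intro z' hz'
        apply key_of_kps
        intro q hq
        refine hW' q (List.mem_append.2 (Or.inr (List.mem_flatMap.2 ⟨_, hz', ?_⟩)))
        rw [unpair_pairBits]
        exact hq

/-- a good random oracle -/
theorem exists_W : ∃ W : Oracle, (∀ y, ¬ BadE y W) ∧
    ∀ k, ¬ IsSigPoly (orac W) k (Pool.Agent.H591R3.PHG.lang (k + 3) (fr W)) := by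
  classical
  obtain ⟨δ', hδ', hsum⟩ := ENNReal.exists_pos_sum_of_countable
    (ε := ENNReal.ofReal (1 / 2)) (ENNReal.ofReal_pos.2 (by norm_num)).ne' Par
  choose Nθ Eθ hE1 hE2 using fun θ : Par => sig_event certP_orac θ (δ' θ)
    (by exact_mod_cast hδ' θ)
  obtain ⟨W, hW⟩ := exists_avoid (ι := List Bool ⊕ Par) (fun i => Sum.elim NB Nθ i)
    (fun i => match i with
      | Sum.inl y => fun a => BadE y (orc (NB y) a)
      | Sum.inr θ => Eθ θ)
    (fun i => match i with
      | Sum.inl y => 1 / 2 ^ 7 * (1 / 2) ^ kl y.length
      | Sum.inr θ => (δ' θ : ℝ))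
    (fun i => match i with
      | Sum.inl y => badE_bound y
      | Sum.inr θ => hE1 θ) (by
        rw [Summable.tsum_sum ENNReal.summable ENNReal.summable]
        have h1 := kraft_tsum
        have h2 : ∑' θ : Par, ENNReal.ofReal (δ' θ : ℝ) < ENNReal.ofReal (1 / 2) := by
          refine lt_of_le_of_lt (le_of_eq ?_) hsum
          congr 1
          funext θ
          exact ENNReal.ofReal_coe_nnreal
        refine (ENNReal.add_lt_add_of_le_of_lt ?_ h1 h2).trans_le ?_
        · exact (h1.trans_lt ENNReal.ofReal_lt_top).ne
        · rw [← ENNReal.ofReal_add (by norm_num) (by norm_num), ← ENNReal.ofReal_one]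
          exact ENNReal.ofReal_le_ofReal (by norm_num))
  refine ⟨W, fun y hy => hW (Sum.inl y) (badE_local hy), fun k hk => ?_⟩
  obtain ⟨θ, hθ⟩ := mem_easy3 hk
  exact hW (Sum.inr θ) (hE2 θ W hθ)

end Pool.Agent.W908
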