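import Pool.Agent.W908.F3
import Pool.Agent.W908.D4

/-! The algorithm with a separator as an oracle. -/

set_option autoImplicit false

namespace Pool.Agent.W908

open Pool.Agent.NPC Pool.Agent.H620R2.Gauge Pool.Agent.H622R2

/-- the input, the bound and the known facts, from the core of a state -/
def cx (c : List Bool) : List Bool := (unpair c).1
def cu (c : List Bool) : List Bool := (unpair (unpair c).2).1
def cD (c : List Bool) : List Bool := (unpair (unpair c).2).2

theorem poly_cx : Poly cx := Poly.fst poly_unpair
theorem poly_cu : Poly cu := Poly.fst (poly_unpair.comp (Poly.snd poly_unpair))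
theorem poly_cD : Poly cD := Poly.snd (poly_unpair.comp (Poly.snd poly_unpair))

/-- the statement for a state -/
def zz (e c : List Bool) : List Bool :=
  pairBits e (pairBits (cx c) (pairBits (cu c) (pairBits (cD c) [])))

theorem poly_zz (e : List Bool) : Poly (zz e) :=
  poly_pairBits (NPC.Poly.const e) (poly_pairBits poly_cx (poly_pairBits poly_cu
    (poly_pairBits poly_cD (NPC.Poly.const []))))

/-- the path, cut to the right length -/
def cutS (g c : List Bool) : List Bool := g.take (10 * (cu c).length + 4)

/-- the next state, from the answers of the subroutines -/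
def nxt' (t : List Bool × List Bool × List Bool) : List Bool :=
  if (unpair t.1).1 = [] then
    (if (unpair t.2.1).1 = [true] then
      (if t.2.2 = [] then pairBits [true] (unpair t.1).2 else
        pairBits [] (pairBits (cx (unpair t.1).2) (pairBits (cu (unpair t.1).2)
          (pairBits (pairBits (cutS (unpair (unpair t.2.1).2).2 (unpair t.1).2)
            (t.2.2.tail.take (cu (unpair t.1).2).length)) (cD (unpair t.1).2)))))
      else pairBits [false] (unpair t.1).2)
  else t.1

/-- one step of the main loop -/
noncomputable def mstep (e : List Bool) (A S : Oracle) (st : List Bool) : List Bool :=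
  nxt' (st, pairBits (kd A S (zz e (unpair st).2))
      (pairBits (zz e (unpair st).2) (gre A S (zz e (unpair st).2))),
    chk (mach e).1 (join A S) (pairBits (cutS (gre A S (zz e (unpair st).2)) (unpair st).2)
      (cx (unpair st).2)))

theorem poly_nxt' : Poly nxt' := by
  have h1 : Poly (fun t : List Bool × List Bool × List Bool => unpair t.1) :=
    poly_unpair.comp (Poly.fst Poly.id)
  have hc : Poly (fun t : List Bool × List Bool × List Bool => (unpair t.1).2) := Poly.snd h1
  have h2 : Poly (fun t : List Bool × List Bool × List Bool => unpair t.2.1) :=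
    poly_unpair.comp (Poly.fst (Poly.snd Poly.id))
  have h3 : Poly (fun t : List Bool × List Bool × List Bool => t.2.2) :=
    Poly.snd (Poly.snd Poly.id)
  have hg : Poly (fun t : List Bool × List Bool × List Bool => (unpair (unpair t.2.1).2).2) :=
    Poly.snd (poly_unpair.comp (Poly.snd h2))
  have hx := poly_cx.comp hc
  have hu := poly_cu.comp hc
  have hD := poly_cD.comp hc
  have hcut : Poly (fun t : List Bool × List Bool × List Bool =>
      cutS (unpair (unpair t.2.1).2).2 (unpair t.1).2) :=
    R1.poly_take hg (UPoly.add (UPoly.mul (UPoly.const 10) (UPoly.length hu)) (UPoly.const 4))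
  exact Poly.ite (Poly.decide_eq (Poly.fst h1) (NPC.Poly.const []))
    (Poly.ite (Poly.decide_eq (Poly.fst h2) (NPC.Poly.const [true]))
      (Poly.ite (Poly.decide_eq h3 (NPC.Poly.const []))
        (poly_pairBits (NPC.Poly.const [true]) hc)
        (poly_pairBits (NPC.Poly.const []) (poly_pairBits hx (poly_pairBits hu
          (poly_pairBits (poly_pairBits hcut (R1.poly_take (Poly.tail h3) (UPoly.length hu)))
            hD)))))
      (poly_pairBits (NPC.Poly.const [false]) hc))
    (Poly.fst Poly.id)

theorem isFP_mstep (e : List Bool) (A S : Oracle) : IsFP (join A S) (mstep e A S) := by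
  have hz : Poly (fun st : List Bool => zz e (unpair st).2) :=
    (poly_zz e).comp (Poly.snd poly_unpair)
  have hF : IsFP (join A S) (fun st => pairBits (kd A S (zz e (unpair st).2))
      (pairBits (zz e (unpair st).2) (gre A S (zz e (unpair st).2)))) :=
    ((isFP_kd A S).comp (IsFP.of_poly hz)).pair ((isFP_gre A S).comp (IsFP.of_poly hz))
  have h2 : Poly (fun t : List Bool × List Bool => unpair t.2) :=
    poly_unpair.comp (Poly.snd Poly.id)
  have hg : Poly (fun t : List Bool × List Bool => (unpair (unpair t.2).2).2) :=
    Poly.snd (poly_unpair.comp (Poly.snd h2))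
  have hc : Poly (fun t : List Bool × List Bool => (unpair t.1).2) :=
    Poly.snd (poly_unpair.comp (Poly.fst Poly.id))
  have hφ : Poly (fun t : List Bool × List Bool =>
      pairBits (cutS (unpair (unpair t.2).2).2 (unpair t.1).2) (cx (unpair t.1).2)) :=
    poly_pairBits (R1.poly_take hg (UPoly.add (UPoly.mul (UPoly.const 10)
      (UPoly.length (poly_cu.comp hc))) (UPoly.const 4))) (poly_cx.comp hc)
  have h := IsFP.seq hF (isFP_chk (mach e).1 (join A S)) hφ poly_nxt'
  have e1 : mstep e A S = fun st => nxt' (st, pairBits (kd A S (zz e (unpair st).2))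
      (pairBits (zz e (unpair st).2) (gre A S (zz e (unpair st).2))),
      chk (mach e).1 (join A S) (pairBits (cutS (unpair (unpair (pairBits
        (kd A S (zz e (unpair st).2)) (pairBits (zz e (unpair st).2)
        (gre A S (zz e (unpair st).2))))).2).2 (unpair st).2) (cx (unpair st).2))) := by
    funext st
    unfold mstep
    simp only [unpair_pairBits]
  rw [e1]
  exact h

/-- the step from a running state -/
theorem mstep_eq (e : List Bool) (A S : Oracle) (x u D : List Bool) :
    mstep e A S (pairBits [] (pairBits x (pairBits u D))) =
      if kd A S (pairBits e (pairBits x (pairBits u (pairBits D [])))) = [true] then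
        (if chk (mach e).1 (join A S) (pairBits ((gre A S (pairBits e (pairBits x (pairBits u
            (pairBits D []))))).take (10 * u.length + 4)) x) = [] then
          pairBits [true] (pairBits x (pairBits u D)) else
          pairBits [] (pairBits x (pairBits u (pairBits (pairBits ((gre A S (pairBits e
            (pairBits x (pairBits u (pairBits D []))))).take (10 * u.length + 4))
            ((chk (mach e).1 (join A S) (pairBits ((gre A S (pairBits e (pairBits x (pairBits u
            (pairBits D []))))).take (10 * u.length + 4)) x)).tail.take u.length)) D))))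
      else pairBits [false] (pairBits x (pairBits u D)) := by
  unfold mstep nxt' zz cutS cx cu cD
  simp only [unpair_pairBits, if_true]

/-- the step from a finished state -/
theorem mstep_fin (e : List Bool) (A S : Oracle) (f c : List Bool) (hf : f ≠ []) :
    mstep e A S (pairBits f c) = pairBits f c := by
  unfold mstep nxt'
  simp only [unpair_pairBits]
  rw [if_neg hf]

theorem mstep_form (e : List Bool) (A S : Oracle) (x u : List Bool) : ∀ i : ℕ,
    ∃ f D, (mstep e A S)^[i] (pairBits [] (pairBits x (pairBits u []))) =
      pairBits f (pairBits x (pairBits u D)) ∧ f.length ≤ 1 ∧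
      D.length ≤ i * (42 * u.length + 30) := by
  intro i
  induction i with
  | zero => exact ⟨[], [], rfl, by simp, by simp⟩
  | succ i ih =>
    obtain ⟨f, D, h1, h2, h3⟩ := ih
    rw [Function.iterate_succ_apply', h1]
    have h4 : i * (42 * u.length + 30) ≤ (i + 1) * (42 * u.length + 30) :=
      Nat.mul_le_mul_right _ (by omega)
    by_cases hf : f = []
    · subst hf
      rw [mstep_eq]
      split_ifs
      · exact ⟨[true], D, rfl, by simp, h3.trans h4⟩
      · refine ⟨[], _, rfl, by simp, ?_⟩
        rw [A2.length_pairBits, A2.length_pairBits, List.length_take, List.length_take]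
        have : (i + 1) * (42 * u.length + 30) = i * (42 * u.length + 30) +
          (42 * u.length + 30) := by ring
        omega
      · exact ⟨[false], D, rfl, by simp, h3.trans h4⟩
    · rw [mstep_fin _ _ _ _ _ hf]
      exact ⟨f, D, rfl, h2, h3.trans h4⟩

/-- what happens in one step -/
theorem mstep_run {W S : Oracle} (hS : Sep W S) {e x u : List Bool} {V : List Bool → List Bool}
    (hM : ∀ y, (mach e).1.out (orac W) y = some (V y))
    (hpu : (mach e).2.eval x.length ≤ u.length) {l : List (ℕ × List Bool)}
    {D : List (List Bool × List Bool)} (hch : Ch W e x u l D)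
    (hD : ∀ c, Fact e x D c → Cc W c)
    (hcomp : ∀ w : List Bool, w.length ≤ (mach e).2.eval x.length → V (pairBits w x) = [true] →
      KK W (zenc e x u D [])) :
    (∃ j z s b, Ch W e x u ((j, z) :: l) ((s, b) :: D) ∧
      (∀ c, Fact e x ((s, b) :: D) c → Cc W c) ∧
      mstep e (orac W) S (pairBits [] (pairBits x (pairBits u (encD D)))) =
        pairBits [] (pairBits x (pairBits u (encD ((s, b) :: D))))) ∨
    (mstep e (orac W) S (pairBits [] (pairBits x (pairBits u (encD D)))) =
        pairBits [true] (pairBits x (pairBits u (encD D))) ∧
      ∃ w : List Bool, w.length ≤ (mach e).2.eval x.length ∧ V (pairBits w x) = [true]) ∨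
    (mstep e (orac W) S (pairBits [] (pairBits x (pairBits u (encD D)))) =
        pairBits [false] (pairBits x (pairBits u (encD D))) ∧
      ¬ ∃ w : List Bool, w.length ≤ (mach e).2.eval x.length ∧ V (pairBits w x) = [true]) := by
  rw [mstep_eq]
  have hz : pairBits e (pairBits x (pairBits u (pairBits (encD D) []))) = zenc e x u D [] := rfl
  rw [hz]
  by_cases hK : KK W (zenc e x u D [])
  · rw [if_pos ((kd_eq hS _).2 hK)]
    have hlen : ∀ v ∈ VV W e x u D, v.length < 5 * (zenc e x u D []).length + 4 := by
      intro v hv
      have := code_len hpu hv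
      rw [length_zenc]
      omega
    have hg := gre_correct hS hK hlen
    set s := gre (orac W) S (zenc e x u D []) with hs
    have hst : s.take (10 * u.length + 4) = s := by
      apply List.take_of_length_le
      have := code_len hpu hg.1
      omega
    rw [hst]
    obtain ⟨w, a, P, hcode, hvl⟩ := hg.1
    have hvl' := hvl
    obtain ⟨zf, Q, hc, hrec⟩ := hvl'
    by_cases herr : ∃ j, j < a.length ∧ ¬ ∃ q, nact e w x (a.take j) = false :: q ∧
        a[j]? = some (orac W q)
    · -- there is a wrong answer
      classical
      obtain ⟨hj1, hj2⟩ := Nat.find_spec herr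
      have hmin := fun i (hi : i < Nat.find herr) => Nat.find_min herr hi
      set j := Nat.find herr with hj
      rcases hvl.right_or hj1 with hr | ⟨c, hc1, hc2, hc3⟩
      · exact absurd hr hj2
      · left
        obtain ⟨z, hz1, hz2⟩ := hc3
        have hchk : chk (mach e).1 (join (orac W) S) (pairBits s x) = true :: a.take j := by
          rw [hcode]
          refine chk_wrong (mach e).1 (orac W) S w x a (bits P) hj1 ?_ hc1 ?_
          · intro i hi
            by_contra hcon
            exact hmin i hi ⟨by omega, hcon⟩
          · rw [hc2]
            intro h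
            have h1 : orac W (true :: c) = true := orac_true.2 ⟨z, hz1, hz2⟩
            rw [h1] at h
            simp at h
        rw [hchk, if_neg (by simp), List.tail_cons]
        have hta : (a.take j).take u.length = a.take j := by
          apply List.take_of_length_le
          have := hc.len_a
          rw [List.length_take]
          omega
        rw [hta]
        refine ⟨j, z, s, a.take j, ⟨hch, hg, w, a, P, hcode, hj1, rfl, hc2, ?_⟩, ?_, rfl⟩
        · rw [← hz1]
          exact hc1
        · rintro c' ⟨s', b', hm, w', a', P', e1, e2⟩
          rw [List.mem_cons] at hm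
          rcases hm with hm | hm
          · obtain ⟨rfl, rfl⟩ := Prod.mk.inj hm
            rw [hcode] at e1
            obtain ⟨rfl, rfl, rfl⟩ := code_inj e1
            rcases e2 with e2 | e2
            · exact hvl.sound _ e2
            · rw [hc1] at e2
              simp only [List.cons.injEq, true_and] at e2
              subst e2
              exact ⟨z, hz1, hz2⟩
          · exact hD _ ⟨s', b', hm, w', a', P', e1, e2⟩
    · -- all answers are right
      right; left
      push Not at herr
      have hpth : ∀ j < a.length, ∃ q, nact e w x (a.take j) = false :: q ∧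
          a[j]? = some (orac W q) := herr
      have hchk : chk (mach e).1 (join (orac W) S) (pairBits s x) = [] := by
        rw [hcode]
        refine chk_right (mach e).1 (orac W) S w x a (bits P) hpth ?_
        have := hc.acc
        unfold nact at this
        rw [this]
        simp
      rw [hchk, if_pos rfl]
      refine ⟨rfl, w, hc.wle, ?_⟩
      exact out_of_path (M := (mach e).1) (A := orac W) (x := pairBits w x) (a := a) hpth
        hc.acc (hM _)
  · rw [if_neg (fun h => hK ((kd_eq hS _).1 h))]
    right; right
    refine ⟨rfl, ?_⟩
    rintro ⟨w, h1, h2⟩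
    exact hK (hcomp w h1 h2)

/-- The reduction to the separators of the pair. -/
theorem algo {W S : Oracle} (hbad : ∀ y, ¬ BadE y W) (hS : Sep W S) {L : Set (List Bool)}
    (hL : IsNP (orac W) L) : IsP (join (orac W) S) L := by
  obtain ⟨V, p, ⟨M, hM⟩, hLV⟩ := hL
  obtain ⟨e, he⟩ := mach_surj (M, p)
  obtain ⟨b, hb⟩ := A2.act_bound M
  set Y : Polynomial ℕ := Polynomial.C 2 * p + Polynomial.X + 1 with hY
  set q : Polynomial ℕ := p + (M.p * b).comp Y with hq
  set T : Polynomial ℕ := Polynomial.C 8 * (Polynomial.C (2 * e.length + 2) +
    Polynomial.C 2 * Polynomial.X + q + 1) ^ 2 with hT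
  set g : List Bool → List Bool := fun x =>
    pairBits [] (pairBits x (pairBits (List.replicate (q.eval x.length) true) [])) with hg
  have hgp : Poly g := by
    have h1 : Poly (fun x : List Bool => List.replicate (q.eval x.length) ()) :=
      (UPoly.length Poly.id).eval q
    have h2 : Poly (fun x : List Bool => List.replicate (q.eval x.length) true) := by
      refine (NPC.Poly.map (F := fun _ _ => true) h1 (NPC.Poly.const true)).congr fun x => ?_
      simp
    exact poly_pairBits (NPC.Poly.const []) (poly_pairBits Poly.id
      (poly_pairBits h2 (NPC.Poly.const [])))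
  have hloop : IsFP (join (orac W) S) (fun x => (mstep e (orac W) S)^[T.eval x.length] (g x)) := by
    refine (isFP_mstep e (orac W) S).loop hgp T (Polynomial.C 2 * Polynomial.X +
      Polynomial.C 2 * q + T * (Polynomial.C 42 * q + Polynomial.C 30) + Polynomial.C 5) ?_
    intro x i hi
    obtain ⟨f, D, h1, h2, h3⟩ := mstep_form e (orac W) S x
      (List.replicate (q.eval x.length) true) i
    rw [hg]
    simp only
    rw [h1, A2.length_pairBits, A2.length_pairBits, A2.length_pairBits]
    rw [List.length_replicate] at h3 ⊢
    have h4 : i * (42 * q.eval x.length + 30) ≤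
        T.eval x.length * (42 * q.eval x.length + 30) := Nat.mul_le_mul_right _ hi
    simp only [Polynomial.eval_add, Polynomial.eval_mul, Polynomial.eval_C, Polynomial.eval_X]
    omega
  refine ⟨fun x => (unpair ((mstep e (orac W) S)^[T.eval x.length] (g x))).1,
    (IsFP.of_poly (Poly.fst poly_unpair)).comp hloop, fun x => ?_⟩
  set u := List.replicate (q.eval x.length) true with hu
  have hulen : u.length = q.eval x.length := by simp [hu]
  have hqe : q.eval x.length = p.eval x.length +
      M.p.eval (Y.eval x.length) * b.eval (Y.eval x.length) := by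
    rw [hq, Polynomial.eval_add, Polynomial.eval_comp, Polynomial.eval_mul]
  have hM' : ∀ y, (mach e).1.out (orac W) y = some (V y) := by
    rw [he]; exact hM
  have hpu : (mach e).2.eval x.length ≤ u.length := by
    rw [he, hulen, hqe]
    exact Nat.le_add_right _ _
  have hcomp : ∀ D : List (List Bool × List Bool), (∀ c, Fact e x D c → Cc W c) →
      ∀ w : List Bool, w.length ≤ (mach e).2.eval x.length → V (pairBits w x) = [true] →
      KK W (zenc e x u D []) := by
    intro D hD w hw hV
    have h1 := hM (pairBits w x)
    rw [hV, out_true_iff] at h1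
    obtain ⟨a, h2, h3, h4⟩ := h1
    have hn : ∀ t, nact e w x t = M.D (pairBits (pairBits w x) t) := by
      intro t
      unfold nact
      rw [he]
    have hw' : w.length ≤ p.eval x.length := by rw [he] at hw; exact hw
    have hylen : (pairBits w x).length ≤ Y.eval x.length := by
      rw [A2.length_pairBits, hY]
      simp only [Polynomial.eval_add, Polynomial.eval_mul, Polynomial.eval_C,
        Polynomial.eval_X, Polynomial.eval_one]
      omega
    obtain ⟨P, hP⟩ := Vl.complete (W := W) (e := e) (x := x) (u := u) (D := D) (w := w) (a := a)
      (by rw [hn]; exact h4) hw (fun j hj => by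
        obtain ⟨q', h5, h6⟩ := h3 j hj
        exact ⟨q', by rw [hn]; exact h5, h6⟩) (by
        rw [hulen, hqe]
        refine le_trans ?_ (Nat.le_add_left _ _)
        calc ∑ j ∈ Finset.range a.length, (nact e w x (a.take j)).length ≤
            ∑ _j ∈ Finset.range a.length, b.eval (Y.eval x.length) := by
              refine Finset.sum_le_sum fun j hj => ?_
              rw [hn]
              refine (hb _ _ ?_).trans (eval_mono b hylen)
              rw [List.length_take]
              have := Finset.mem_range.1 hj
              omega
          _ = a.length * b.eval (Y.eval x.length) := by simp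
          _ ≤ _ := Nat.mul_le_mul_right _ (h2.le.trans (eval_mono M.p hylen))) hD
    rw [kk_iff]
    exact ⟨w, a, P, hP, ⟨_, List.nil_append _⟩⟩
  have hiff : x ∈ L ↔ ∃ w : List Bool, w.length ≤ (mach e).2.eval x.length ∧
      V (pairBits w x) = [true] := by
    rw [he]
    exact hLV x
  have hinv : ∀ i, (∃ l D, Ch W e x u l D ∧ l.length = i ∧ (∀ c, Fact e x D c → Cc W c) ∧
      (mstep e (orac W) S)^[i] (g x) = pairBits [] (pairBits x (pairBits u (encD D)))) ∨
      (∃ c, (mstep e (orac W) S)^[i] (g x) = pairBits [true] c ∧ x ∈ L) ∨
      (∃ c, (mstep e (orac W) S)^[i] (g x) = pairBits [false] c ∧ x ∉ L) := by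
    intro i
    induction i with
    | zero =>
      left
      refine ⟨[], [], trivial, rfl, ?_, rfl⟩
      rintro c ⟨s, b, h, -⟩
      simp at h
    | succ i ih =>
      rw [Function.iterate_succ_apply']
      rcases ih with ⟨l, D, h1, h2, h3, h4⟩ | ⟨c, h1, h2⟩ | ⟨c, h1, h2⟩
      · rw [h4]
        rcases mstep_run hS hM' hpu h1 h3 (hcomp D h3) with
          ⟨j, z, s, b, h5, h6, h7⟩ | ⟨h5, h6⟩ | ⟨h5, h6⟩
        · left
          exact ⟨_, _, h5, by simp [h2], h6, h7⟩
        · right; left
          exact ⟨_, h5, hiff.2 h6⟩
        · right; right
          exact ⟨_, h5, fun h => h6 (hiff.1 h)⟩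
      · right; left
        rw [h1, mstep_fin _ _ _ _ _ (by simp)]
        exact ⟨c, rfl, h2⟩
      · right; right
        rw [h1, mstep_fin _ _ _ _ _ (by simp)]
        exact ⟨c, rfl, h2⟩
  have hTe : T.eval x.length = 2 * mm (pairBits e (pairBits x u)).length := by
    rw [A2.length_pairBits, A2.length_pairBits, hulen, hT, mm]
    simp only [Polynomial.eval_add, Polynomial.eval_mul, Polynomial.eval_C, Polynomial.eval_X,
      Polynomial.eval_pow, Polynomial.eval_one]
    ring
  rcases hinv (T.eval x.length) with ⟨l, D, h1, h2, -, -⟩ | ⟨c, h1, h2⟩ | ⟨c, h1, h2⟩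
  · exfalso
    exact hbad (pairBits e (pairBits x u)) ⟨e, x, u, l, D, rfl, h1, by rw [h2, hTe]⟩
  · show x ∈ L ↔ (unpair ((mstep e (orac W) S)^[T.eval x.length] (g x))).1 = [true]
    rw [h1, unpair_pairBits]
    simp [h2]
  · show x ∈ L ↔ (unpair ((mstep e (orac W) S)^[T.eval x.length] (g x))).1 = [true]
    rw [h1, unpair_pairBits]
    simp [h2]

end Pool.Agent.W908
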