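import Pool.Agent.W908.E5
import Pool.Agent.W908.F4

/-! All together. -/

set_option autoImplicit false

namespace Pool.Agent.W908

open Pool.Agent.NPC Pool.Agent.H620R2.Gauge Pool.Agent.H622R2
open Pool.Agent.H591R3.PHG (IsSig IsSigPoly lang_sig)

/-- the algorithm with longer questions -/
def frD (D : List Bool → List Bool) (y : List Bool) : List Bool :=
  if (D y).head? = some false then false :: D y else D y

/-- the algorithm with longer questions -/
noncomputable def frAlg (M : Alg) : Alg where
  D := frD M.D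
  poly := polyTime_of_poly_list (by
    have hD := poly_of_polyTime M.poly
    exact Poly.ite (Poly.decide_eq (Poly.head? hD) (NPC.Poly.const _))
      (Poly.cons (NPC.Poly.const false) hD) hD)
  p := M.p

theorem frAlg_run (M : Alg) (W : Oracle) (x : List Bool) : ∀ (n : ℕ) (a : List Bool),
    (frAlg M).run (orac W) x n a = M.run (fr W) x n a := by
  intro n
  induction n with
  | zero => intro a; rfl
  | succ n ih =>
    intro a
    rw [A2.run_succ, A2.run_succ]
    have hD : (frAlg M).D (pairBits x a) = frD M.D (pairBits x a) := rfl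
    rw [hD]
    unfold frD
    by_cases h : (M.D (pairBits x a)).head? = some false
    · rw [if_pos h]
      obtain ⟨q, hq⟩ : ∃ q, M.D (pairBits x a) = false :: q := by
        cases hd : M.D (pairBits x a) with
        | nil => rw [hd] at h; simp at h
        | cons b q =>
          rw [hd] at h
          simp at h
          exact ⟨q, by rw [h]⟩
      rw [hq]
      simp only [List.head?_cons, if_true, List.tail_cons]
      rw [ih]
      rfl
    · rw [if_neg h, if_neg h, if_neg h]

theorem isFP_fr {W : Oracle} {F : List Bool → List Bool} (h : IsFP (fr W) F) :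
    IsFP (orac W) F := by
  obtain ⟨M, hM⟩ := h
  refine ⟨frAlg M, fun x => ?_⟩
  rw [← hM x]
  exact frAlg_run M W x _ _

theorem isSig_fr {W : Oracle} {k : ℕ} {L : Set (List Bool)} (h : IsSig (fr W) k L) :
    IsSig (orac W) k L := by
  obtain ⟨V, p, h1, h2⟩ := h
  exact ⟨V, p, isFP_fr h1, h2⟩

/-- The oracle. -/
theorem main : ∃ O : Oracle,
    (∃ A B : Set (List Bool), A.Nonempty ∧ B.Nonempty ∧ Disjoint A B ∧ IsUP O A ∧ IsUP O B ∧
      ∀ S : Oracle, (∀ x ∈ A, S x = true) → (∀ x ∈ B, S x = false) →
        ∀ L : Set (List Bool), IsNP O L → IsP (join O S) L) ∧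
    ∀ k : ℕ, ∃ L : Set (List Bool), IsSig O (k + 4) L ∧ ¬ IsSigPoly O k L := by
  obtain ⟨W, h1, h2⟩ := exists_W
  refine ⟨orac W, ⟨pA W, pB W, ⟨[], Or.inl rfl⟩, ⟨[true], Or.inl rfl⟩, pair_disjoint W,
    isUP_pA W, isUP_pB W, fun S hA hB L hL => algo h1 ⟨hA, hB⟩ hL⟩, fun k => ?_⟩
  exact ⟨_, isSig_fr (lang_sig (fr W) (k + 3)), h2 k⟩

end Pool.Agent.W908
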